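import Pool.Agent.H37.CP.Targets
import Pool.Agent.H96.KX.Targets2

/-! # MP_c62aed_lc: the core inequality for real monotone circuits (row RMC) -/

namespace Pool.Agent.H40.CPE

open Finset Pool.Agent.H37.CP
open Pool.Agent.H1.LP (Clause viol Loc Sys supp ip)
open Pool.Agent.H96.KX (psz fac jun PDz)
open Pool.Agent.H91.AV (MomInd rhx bix kap)

theorem pf_RMC (hR : S_RMD) (hK : S_KER) (hF : Pool.Agent.H96.KX.S_FRM3) : S_RMC := by
  classical
  intro B R t q n ε T Ys hR1 ht hq hBn hT hA01 hfar hnum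
  have hsupp : ∀ i, (supp (Ys.A i)).card ≤ 3 := by
    intro i
    refine (card_le_card ?_).trans (hT i).le
    intro j hj
    by_contra hne
    have h1 : Ys.A i j ≠ 0 := (mem_filter.1 hj).2
    rw [hA01, if_neg hne] at h1
    exact h1 rfl
  obtain ⟨asg, dec, C, fC, cl, inF, eq, F, phi, hda, hcC, hF, hcl, hphi, hsum, hviol, hlast⟩ :=
    hF B R q n T Ys.A Ys.be (by omega) hT hA01 hBn
  have hq0 : 0 < q := by omega
  obtain ⟨Yc, hYc⟩ : ∃ Yc, Fintype.card (Fin B → Fin q) = Yc := ⟨_, rfl⟩
  have hYc' : Yc = q ^ B := by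
    rw [← hYc, Fintype.card_fun, Fintype.card_fin, Fintype.card_fin]
  let e : Fin Yc ≃ (Fin B → Fin q) := (Fintype.equivFinOfCardEq hYc).symm
  refine ⟨Yc, fun _ => 4 * R, fun a => phi (e a), ?_, ?_, ?_⟩
  · rw [hYc']
    positivity
  · intro a
    refine ⟨?_, le_rfl, ?_, ?_⟩
    · show 1 ≤ 4 * R
      omega
    · intro c
      obtain ⟨c', hc'⟩ := hphi (e a) c
      show (phi (e a) c).card = 3 ∧ ((phi (e a) c).image Prod.fst).card = 3
      rw [hc']
      exact hcl c'
    · intro y
      rw [hviol (e a) y]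
      refine le_trans (le_of_eq ?_) (hfar _)
      push_cast
      ring
  -- the inequality
  intro Ci A hsound hacc t' p hdep
  have h2B : (0 : ℝ) < 1 / 2 ^ B := by positivity
  obtain ⟨K, hK1, hK2⟩ := hK (Fin q) B R t Ys (1 / 2 ^ B) hR1 ht
    (by rw [Fintype.card_fin]; exact hq) hsupp h2B.le
    (by rw [Fintype.card_fin]; exact hnum)
  have hY0 : 0 < Fintype.card (Fin B → Fin q → ZMod 2) := Fintype.card_pos
  have main := hR (Fin B → Fin q → ZMod 2) (Fin B → Fin q) n R
    (fun y => {c' | ∃ c, cl c = c' ∧ (cl c).Sat (asg y)}) (fun a => Set.range (phi a))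
    (fun i y a => ip (Ys.A i) (fun j => y j (a j)) ≠ Ys.be i) K (1 / 2 ^ B) hR1 h2B hY0 hK1 hK2
    (by
      rintro a _ ⟨i, rfl⟩
      have h1 : ∃ c, c ∈ F a ∧ cl c = phi a i := by
        by_contra hcon
        push Not at hcon
        have h2 := hsum a (fun Cl => if Cl = phi a i then (1 : ℝ) else 0)
        have h3 : ∑ c ∈ F a, (if cl c = phi a i then (1 : ℝ) else 0) = 0 :=
          sum_eq_zero fun c hc => if_neg (hcon c hc)
        rw [h3] at h2
        have h4 : (1 : ℝ) ≤ ∑ j, (if phi a j = phi a i then (1 : ℝ) else 0) := by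
          have h5 := single_le_sum (s := univ)
            (f := fun j => if phi a j = phi a i then (1 : ℝ) else 0)
            (fun j _ => by split_ifs <;> norm_num) (mem_univ i)
          simpa using h5
        rw [h2] at h4
        linarith
      obtain ⟨c, hc, hci⟩ := h1
      refine ⟨eq c, fun y hy => ?_⟩
      refine hlast a c y ((hF a c).1 hc) ?_
      intro hs
      exact hy ⟨c, hci, hs⟩)
    Ci (A.map e.toEmbedding)
    (by
      intro y
      set F' : Finset (Clause n) := (univ.filter (fun c => (cl c).Sat (asg y))).image cl with hF'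
      have hmem : ∀ c', c' ∈ F' ↔ ∃ c, cl c = c' ∧ (cl c).Sat (asg y) := by
        intro c'
        rw [hF', mem_image]
        constructor
        · rintro ⟨c, hc, rfl⟩
          exact ⟨c, rfl, (mem_filter.1 hc).2⟩
        · rintro ⟨c, rfl, hc⟩
          exact ⟨c, mem_filter.2 ⟨mem_univ _, hc⟩, rfl⟩
      have hcard : F'.card ≤ R * (2 * q) ^ 3 :=
        (card_image_le.trans (card_le_univ _)).trans hcC
      have hns := hsound F'.card (fun i => (F'.equivFin.symm i).1) hcard
        (by
          intro i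
          obtain ⟨c, hc, _⟩ := (hmem _).1 (F'.equivFin.symm i).2
          rw [← hc]
          exact hcl c)
        ⟨asg y, fun i => by
          obtain ⟨c, hc, hs⟩ := (hmem _).1 (F'.equivFin.symm i).2
          rw [← hc]
          exact hs⟩
      unfold RAcc at hns
      have hrange : Set.range (fun i => (F'.equivFin.symm i).1) =
          {c' | ∃ c, cl c = c' ∧ (cl c).Sat (asg y)} := by
        ext c'
        constructor
        · rintro ⟨i, rfl⟩
          exact (hmem _).1 (F'.equivFin.symm i).2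
        · intro hc'
          refine ⟨F'.equivFin ⟨c', (hmem c').2 hc'⟩, ?_⟩
          simp
      rw [hrange] at hns
      exact not_lt.1 hns)
    (by
      intro a ha
      obtain ⟨i, hi, rfl⟩ := mem_map.1 ha
      exact hacc i hi)
    t' p hdep
  rw [card_map, hYc] at main
  have h3 : (1 / 2 ^ B : ℝ) * 2 ^ B = 1 := by
    field_simp
  calc (A.card : ℝ) * 2 ^ B
      ≤ (2 * (16 * Ci.size) ^ t' * 16 ^ p * (1 / 2 ^ B) * Yc) * 2 ^ B := by gcongr
    _ = 2 * (16 * Ci.size) ^ t' * 16 ^ p * Yc * ((1 / 2 ^ B : ℝ) * 2 ^ B) := by ring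
    _ = 2 * (16 * Ci.size) ^ t' * 16 ^ p * Yc := by rw [h3, mul_one]

end Pool.Agent.H40.CPE
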