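import Pool.Agent.H37.CP.Targets

/-! # MP_c62aed_lc: from wide clauses to width 3 (row TCN) -/

namespace Pool.Agent.H40.CPE

open Finset Pool.Agent.H37.CP
open Pool.Agent.H1.LP (Clause viol Loc Sys supp ip)

theorem tcn_core (w w0 j : ℕ) (hw : 4 ≤ w) (hj : j ≤ w - 3) (F U : ℕ → Prop)
    (hU : ∀ j, U j ↔ (j + 2 ≤ w0 ∧ ∀ k, k ≤ j + 1 → F k) ∨
      (w0 < j + 2 ∧ ∃ k, j + 2 ≤ k ∧ k < w ∧ ¬ F k))
    (hA : if j = 0 then F 0 else U (j - 1)) (hB : F (j + 1))
    (hC : if j < w - 3 then ¬ U j else F (w - 1)) : ∀ k, k < w → F k := by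
  by_contra hcon
  push Not at hcon
  obtain ⟨k0, hk0, hF0⟩ := hcon
  have hP : (j + 1 ≤ w0 → ∀ k, k ≤ j → F k) ∧ (w0 < j + 1 → ∃ k, j + 1 ≤ k ∧ k < w ∧ ¬ F k) := by
    by_cases h0 : j = 0
    · rw [if_pos h0] at hA
      subst h0
      refine ⟨fun _ k hk => ?_, fun _ => ⟨k0, ?_, hk0, hF0⟩⟩
      · have : k = 0 := by omega
        rw [this]
        exact hA
      · by_contra h
        have : k0 = 0 := by omega
        rw [this] at hF0
        exact hF0 hA
    · rw [if_neg h0, hU] at hA
      have e1 : j - 1 + 2 = j + 1 := by omega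
      have e2 : j - 1 + 1 = j := by omega
      rw [e1, e2] at hA
      rcases hA with ⟨h1, h2⟩ | ⟨h1, h2⟩
      · exact ⟨fun _ => h2, fun h => by omega⟩
      · exact ⟨fun h => by omega, fun _ => h2⟩
  have hQ1 : j + 1 ≤ w0 → ∀ k, k ≤ j + 1 → F k := by
    intro h k hk
    rcases Nat.lt_or_ge k (j + 1) with h1 | h1
    · exact hP.1 h k (by omega)
    · have : k = j + 1 := by omega
      rw [this]
      exact hB
  have hQ2 : w0 < j + 1 → ∃ k, j + 2 ≤ k ∧ k < w ∧ ¬ F k := by
    intro h
    obtain ⟨k, h1, h2, h3⟩ := hP.2 h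
    refine ⟨k, ?_, h2, h3⟩
    by_contra h4
    have : k = j + 1 := by omega
    rw [this] at h3
    exact h3 hB
  by_cases hjw : j < w - 3
  · rw [if_pos hjw, hU] at hC
    push Not at hC
    obtain ⟨hC1, hC2⟩ := hC
    rcases Nat.lt_or_ge w0 (j + 2) with h | h
    · have h5 := hC2 h
      rcases Nat.lt_or_ge w0 (j + 1) with h6 | h6
      · obtain ⟨k, h1, h2, h3⟩ := hQ2 h6
        exact h3 (h5 k h1 h2)
      · apply hF0
        rcases Nat.lt_or_ge k0 (j + 2) with h7 | h7
        · exact hQ1 h6 k0 (by omega)
        · exact h5 k0 h7 hk0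
    · obtain ⟨k, hk, hk'⟩ := hC1 h
      exact hk' (hQ1 (by omega) k hk)
  · rw [if_neg hjw] at hC
    have hj' : j = w - 3 := by omega
    rcases Nat.lt_or_ge w0 (j + 1) with h6 | h6
    · obtain ⟨k, h1, h2, h3⟩ := hQ2 h6
      have : k = w - 1 := by
        clear hU hA hB hC hP hQ1 hQ2 h3 hF0
        omega
      rw [this] at h3
      exact h3 hC
    · apply hF0
      rcases Nat.lt_or_ge k0 (j + 2) with h7 | h7
      · exact hQ1 h6 k0 (by omega)
      · have : k0 = w - 1 := by
          clear hU hA hB hC hP hQ1 hQ2 hF0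
          omega
        rw [this]
        exact hC

theorem card3 {n : ℕ} (a b c : Fin n × Bool) (h1 : a.1 ≠ b.1) (h2 : a.1 ≠ c.1)
    (h3 : b.1 ≠ c.1) : ({a, b, c} : Finset (Fin n × Bool)).card = 3 ∧
      (({a, b, c} : Finset (Fin n × Bool)).image Prod.fst).card = 3 := by
  constructor
  · rw [card_eq_three]
    refine ⟨a, b, c, ?_, ?_, ?_, rfl⟩
    · intro h
      exact h1 (congrArg Prod.fst h)
    · intro h
      exact h2 (congrArg Prod.fst h)
    · intro h
      exact h3 (congrArg Prod.fst h)
  · rw [image_insert, image_insert, image_singleton, card_eq_three]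
    exact ⟨a.1, b.1, c.1, h1, h2, h3, rfl⟩

theorem sat3 {n : ℕ} (a b c : Fin n × Bool) (v : Fin n → Bool) :
    Clause.Sat ({a, b, c} : Finset (Fin n × Bool)) v ↔ v a.1 = a.2 ∨ v b.1 = b.2 ∨ v c.1 = c.2 := by
  unfold Clause.Sat
  constructor
  · rintro ⟨l, hl, h⟩
    rw [mem_insert, mem_insert, mem_singleton] at hl
    rcases hl with rfl | rfl | rfl
    · exact Or.inl h
    · exact Or.inr (Or.inl h)
    · exact Or.inr (Or.inr h)
  · rintro (h | h | h)
    · exact ⟨a, by simp, h⟩
    · exact ⟨b, by simp, h⟩
    · exact ⟨c, by simp, h⟩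

section

variable {n0 M w n : ℕ}

/-- the variables: old ones and extension variables -/
abbrev NV (n0 M w : ℕ) := Fin n0 ⊕ (Fin M × Fin (w - 3))

/-- the first literal -/
def tA (lit : Fin M → Fin w → Fin n0 × Bool) (hw : 4 ≤ w) (i : Fin M) (j : Fin (w - 2)) :
    NV n0 M w × Bool :=
  if h : j.val = 0 then (Sum.inl (lit i ⟨0, by omega⟩).1, (lit i ⟨0, by omega⟩).2)
  else (Sum.inr (i, ⟨j.val - 1, by omega⟩), false)

/-- the middle literal -/
def tB (lit : Fin M → Fin w → Fin n0 × Bool) (hw : 4 ≤ w) (i : Fin M) (j : Fin (w - 2)) :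
    NV n0 M w × Bool :=
  (Sum.inl (lit i ⟨j.val + 1, by omega⟩).1, (lit i ⟨j.val + 1, by omega⟩).2)

/-- the last literal -/
def tC (lit : Fin M → Fin w → Fin n0 × Bool) (hw : 4 ≤ w) (i : Fin M) (j : Fin (w - 2)) :
    NV n0 M w × Bool :=
  if h : j.val < w - 3 then (Sum.inr (i, ⟨j.val, h⟩), true)
  else (Sum.inl (lit i ⟨w - 1, by omega⟩).1, (lit i ⟨w - 1, by omega⟩).2)

variable (lit : Fin M → Fin w → Fin n0 × Bool) (hw : 4 ≤ w)

theorem tAB (hinj : ∀ i, Function.Injective (fun k => (lit i k).1)) (i : Fin M)
    (j : Fin (w - 2)) : (tA lit hw i j).1 ≠ (tB lit hw i j).1 := by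
  unfold tA tB
  split_ifs with h
  · intro h1
    have h2 := hinj i (Sum.inl_injective h1)
    rw [Fin.mk.injEq] at h2
    omega
  · intro h1
    exact Sum.inr_ne_inl h1

theorem tBC (hinj : ∀ i, Function.Injective (fun k => (lit i k).1)) (i : Fin M)
    (j : Fin (w - 2)) : (tB lit hw i j).1 ≠ (tC lit hw i j).1 := by
  unfold tB tC
  split_ifs with h
  · intro h1
    exact Sum.inl_ne_inr h1
  · intro h1
    have h2 := hinj i (Sum.inl_injective h1)
    rw [Fin.mk.injEq] at h2
    have := j.2
    omega

theorem tAC (i : Fin M) (j : Fin (w - 2)) : (tA lit hw i j).1 ≠ (tC lit hw i j).1 := by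
  unfold tA tC
  split_ifs with h h' h'
  · exact Sum.inl_ne_inr
  · omega
  · intro h1
    have h2 := Sum.inr_injective h1
    have h3 : j.val - 1 = j.val := congrArg (fun p => p.2.val) h2
    omega
  · exact Sum.inr_ne_inl

end

theorem pf_TCN : S_TCN := by
  classical
  intro Y X n0 M w0 w n lit side f g hw hn hinj hside hunsat
  have hcard : Fintype.card (NV n0 M w) ≤ Fintype.card (Fin n) := by
    rw [Fintype.card_sum, Fintype.card_prod, Fintype.card_fin, Fintype.card_fin,
      Fintype.card_fin, Fintype.card_fin]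
    exact hn
  obtain ⟨ι⟩ := Function.Embedding.nonempty_of_card_le hcard
  let em : NV n0 M w × Bool → Fin n × Bool := fun a => (ι a.1, a.2)
  let cla : Fin M → Fin (w - 2) → Clause n := fun i j =>
    {em (tA lit hw i j), em (tB lit hw i j), em (tC lit hw i j)}
  let sideN : NV n0 M w → Bool := Sum.elim side (fun p => decide (p.2.val + 2 ≤ w0))
  let fN : NV n0 M w → Y → Bool := Sum.elim f
    (fun p y => decide (∃ k : Fin w, p.2.val + 2 ≤ k.val ∧ f (lit p.1 k).1 y = (lit p.1 k).2))
  let gN : NV n0 M w → X → Bool := Sum.elim g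
    (fun p x => decide (∀ k : Fin w, k.val ≤ p.2.val + 1 → g (lit p.1 k).1 x ≠ (lit p.1 k).2))
  let side' : Fin n → Bool := Function.extend ι sideN (fun _ => true)
  let f' : Fin n → Y → Bool := Function.extend ι fN (fun _ _ => false)
  let g' : Fin n → X → Bool := Function.extend ι gN (fun _ _ => false)
  refine ⟨M * (w - 2), fun c => cla (finProdFinEquiv.symm c).1 (finProdFinEquiv.symm c).2,
    side', f', g', le_rfl, ?_, ?_, ?_⟩
  · intro c
    refine card3 _ _ _ ?_ ?_ ?_
    · intro h
      exact tAB lit hw hinj _ _ (ι.injective h)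
    · intro h
      exact tAC lit hw _ _ (ι.injective h)
    · intro h
      exact tBC lit hw hinj _ _ (ι.injective h)
  · intro v
    obtain ⟨i, hi⟩ := hunsat (fun a => v (ι (Sum.inl a)))
    by_contra hcon
    push Not at hcon
    have hsat : ∀ j : Fin (w - 2), v (ι (tA lit hw i j).1) = (tA lit hw i j).2 ∨
        v (ι (tB lit hw i j).1) = (tB lit hw i j).2 ∨
        v (ι (tC lit hw i j).1) = (tC lit hw i j).2 := by
      intro j
      have h1 := hcon (finProdFinEquiv (i, j))
      rw [Equiv.symm_apply_apply] at h1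
      exact (sat3 _ _ _ _).1 h1
    have hB : ∀ j : Fin (w - 2), v (ι (tB lit hw i j).1) ≠ (tB lit hw i j).2 :=
      fun j => hi _
    have hu : ∀ (j : ℕ) (hj : j < w - 3), v (ι (Sum.inr (i, ⟨j, hj⟩))) = true := by
      intro j
      induction j with
      | zero =>
        intro hj
        have h1 := hsat ⟨0, by omega⟩
        rcases h1 with h1 | h1 | h1
        · unfold tA at h1
          rw [dif_pos rfl] at h1
          exact absurd h1 (hi _)
        · exact absurd h1 (hB _)
        · unfold tC at h1
          rw [dif_pos hj] at h1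
          exact h1
      | succ j ih =>
        intro hj
        have h0 := ih (by omega)
        have h1 := hsat ⟨j + 1, by omega⟩
        rcases h1 with h1 | h1 | h1
        · unfold tA at h1
          rw [dif_neg (by simp)] at h1
          simp only [Nat.add_sub_cancel] at h1
          rw [h0] at h1
          exact absurd h1 (by simp)
        · exact absurd h1 (hB _)
        · unfold tC at h1
          rw [dif_pos hj] at h1
          exact h1
    have h1 := hsat ⟨w - 3, by omega⟩
    rcases h1 with h1 | h1 | h1
    · unfold tA at h1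
      rw [dif_neg (by
        show ¬ (w - 3 = 0)
        omega)] at h1
      have h0 := hu (w - 3 - 1) (by omega)
      simp only at h1
      rw [h0] at h1
      exact absurd h1 (by simp)
    · exact absurd h1 (hB _)
    · unfold tC at h1
      rw [dif_neg (lt_irrefl _)] at h1
      exact absurd h1 (hi _)
  · intro c
    set i := (finProdFinEquiv.symm c).1 with hi
    set j := (finProdFinEquiv.symm c).2 with hj
    refine ⟨i, fun y x hns => ?_⟩
    have hasg : ∀ a, asg side' f' g' y x (ι a) = if sideN a = true then gN a x else fN a y := by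
      intro a
      unfold asg
      have e1 : side' (ι a) = sideN a := ι.injective.extend_apply _ _ _
      have e2 : f' (ι a) = fN a := ι.injective.extend_apply _ _ _
      have e3 : g' (ι a) = gN a := ι.injective.extend_apply _ _ _
      rw [e1, e2, e3]
    have hasgl : ∀ a, asg side' f' g' y x (ι (Sum.inl a)) = asg side f g y x a := fun a => hasg _
    let F : ℕ → Prop := fun k => ∀ h : k < w, asg side f g y x (lit i ⟨k, h⟩).1 ≠ (lit i ⟨k, h⟩).2
    let U : ℕ → Prop := fun j => (j + 2 ≤ w0 ∧ ∀ k, k ≤ j + 1 → F k) ∨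
      (w0 < j + 2 ∧ ∃ k, j + 2 ≤ k ∧ k < w ∧ ¬ F k)
    have hUj : ∀ (j : ℕ) (hj : j < w - 3),
        (asg side' f' g' y x (ι (Sum.inr (i, ⟨j, hj⟩))) = true ↔ U j) := by
      intro j hj
      rw [hasg]
      show (if decide (j + 2 ≤ w0) = true then decide (∀ k : Fin w, k.val ≤ j + 1 →
        g (lit i k).1 x ≠ (lit i k).2) else decide (∃ k : Fin w, j + 2 ≤ k.val ∧
          f (lit i k).1 y = (lit i k).2)) = true ↔ U j
      by_cases h : j + 2 ≤ w0
      · rw [decide_eq_true h, if_pos rfl, decide_eq_true_iff]
        constructor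
        · intro h1
          left
          refine ⟨h, fun k hk hkw => ?_⟩
          have h2 := h1 ⟨k, hkw⟩ hk
          unfold asg
          rw [hside, decide_eq_true (by
            show k < w0
            omega), if_pos rfl]
          exact h2
        · rintro (⟨_, h1⟩ | ⟨h1, _⟩)
          · intro k hk
            have h2 := h1 k.val hk k.2
            unfold asg at h2
            rw [hside, decide_eq_true (by
              show k.val < w0
              omega), if_pos rfl] at h2
            exact h2
          · omega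
      · rw [decide_eq_false h, if_neg (by simp), decide_eq_true_iff]
        constructor
        · rintro ⟨k, hk, h1⟩
          right
          refine ⟨by omega, k.val, hk, k.2, fun h2 => ?_⟩
          have h3 := h2 k.2
          unfold asg at h3
          rw [hside, decide_eq_false (by
            show ¬ (k.val < w0)
            omega), if_neg (by simp)] at h3
          exact h3 h1
        · rintro (⟨h1, _⟩ | ⟨_, k, hk, hkw, h1⟩)
          · exact absurd h1 h
          · refine ⟨⟨k, hkw⟩, hk, ?_⟩
            by_contra h2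
            apply h1
            intro h3
            unfold asg
            rw [hside, decide_eq_false (by
              show ¬ (k < w0)
              omega), if_neg (by simp)]
            exact h2
    have hns' := hns
    rw [sat3] at hns'
    push Not at hns'
    obtain ⟨hA, hB, hC⟩ := hns'
    have key := tcn_core w w0 j.val hw (by have := j.2; omega) F U (fun _ => Iff.rfl)
      (by
        split_ifs with h0
        · intro _
          have h1 : asg side' f' g' y x (ι (tA lit hw i j).1) ≠ (tA lit hw i j).2 := hA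
          unfold tA at h1
          rw [dif_pos h0, hasgl] at h1
          exact h1
        · have h1 : asg side' f' g' y x (ι (tA lit hw i j).1) ≠ (tA lit hw i j).2 := hA
          unfold tA at h1
          rw [dif_neg h0] at h1
          simp only at h1
          rw [← hUj (j.val - 1) (by have := j.2; omega)]
          simpa using h1)
      (by
        intro _
        have h1 : asg side' f' g' y x (ι (tB lit hw i j).1) ≠ (tB lit hw i j).2 := hB
        unfold tB at h1
        rw [hasgl] at h1
        exact h1)
      (by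
        split_ifs with h0
        · have h1 : asg side' f' g' y x (ι (tC lit hw i j).1) ≠ (tC lit hw i j).2 := hC
          unfold tC at h1
          rw [dif_pos h0] at h1
          simp only at h1
          rw [← hUj j.val h0]
          exact h1
        · intro _
          have h1 : asg side' f' g' y x (ι (tC lit hw i j).1) ≠ (tC lit hw i j).2 := hC
          unfold tC at h1
          rw [dif_neg h0, hasgl] at h1
          exact h1)
    intro k
    exact key k.val k.2 k.2

end Pool.Agent.H40.CPE
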